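import Pool.Agent.J6H80.BG.Stm3
import Pool.Agent.J6H48.BG.Lat
import Pool.Agent.J6H47.BG.SU

/-!
# TU: uniform upper bound of the two-body energy with mass
-/

set_option autoImplicit false

open MeasureTheory UnitAddTorus Filter
open scoped ENNReal ContDiff

namespace Pool.Agent.J6H53.BG

open Pool.Agent.H751R2.LHY Pool.Agent.H751R2.LHY.G80 Pool.Agent.J6H80.BG
open Pool.Agent.H751R2.LHY.ClipH44

noncomputable section

/-- changing the gap in the two-body functional -/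
lemma Qf_gap (W : T3 → ℝ) (q μ μ' : ℝ) (B0 : Finset Mom) (c : Mom → ℝ) :
    Qf W q μ B0 c = Qf W q μ' B0 c + 2 * (μ - μ') * ∑ n ∈ B0, c n ^ 2 := by
  unfold Qf
  rw [Finset.mul_sum, add_assoc, ← Finset.sum_add_distrib]
  congr 1
  exact Finset.sum_congr rfl fun n _ => by ring

/-- the coefficients are bounded by the integral of `W |1 - w|` -/
lemma gh_abs_le {W : T3 → ℝ} (hW : Pot W) (B0 : Finset Mom) (c : Mom → ℝ) (n : Mom) :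
    |gh W B0 c n| ≤ ∫ y, W y * |1 - wf B0 c y| := by
  unfold gh
  refine (abs_integral_le_integral_abs).trans ?_
  have hg : Continuous fun y => |1 - wf B0 c y| := (continuous_const.sub (wf_cont _ _)).abs
  refine integral_mono_of_nonneg (Filter.Eventually.of_forall fun y => abs_nonneg _)
    (int_mul hW.int hg) (Filter.Eventually.of_forall fun y => ?_)
  simp only
  rw [abs_mul, abs_mul, abs_of_nonneg (hW.nonneg y)]
  have h1 := cs_abs n y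
  have h2 : 0 ≤ W y * |1 - wf B0 c y| := mul_nonneg (hW.nonneg y) (abs_nonneg _)
  exact mul_le_of_le_one_right h2 h1

/-- the base case of the telescoping -/
lemma tu_base {m : ℝ} (hm : 0 < m) {w : (Fin 3 → ℝ) → ℝ} (hwm : Measurable w)
    (hw : Integrable w) (h0 : ∀ x, 0 ≤ w x) (he : ∀ x, w (-x) = w x) {ε : ℝ} (hε : 0 < ε) :
    ∃ δ : ℝ, 0 < δ ∧ ∀ μ : ℝ, 0 < μ → μ ≤ δ → ∃ L : ℝ, 0 < L ∧ ∀ ℓ : ℝ, L ≤ ℓ →
      ∀ K : ℝ, 0 ≤ K → ∀ᶠ R : ℕ in Filter.atTop, ∀ c : Mom → ℝ,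
        Scat (fun y => min (Wr w ℓ y) K) (1 / (2 * m) * (2 * Real.pi / ℓ) ^ 2) μ
          ((boxM R).erase 0) c →
        ℓ ^ 3 * gh (fun y => min (Wr w ℓ y) K) ((boxM R).erase 0) c 0 ≤ scatG m w + ε := by
  obtain ⟨δ, hδ, H⟩ := Pool.Agent.J6H47.BG.su m hm w hwm hw h0 he ε hε
  refine ⟨δ, hδ, fun μ hμ hμδ => ?_⟩
  obtain ⟨L, hL, H1⟩ := H μ hμ hμδ
  refine ⟨L, hL, fun ℓ hℓ K hK => ?_⟩
  have hℓ0 : 0 < ℓ := by linarith
  have hℓ3 : 0 < ℓ ^ 3 := by positivity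
  have hPi := Real.pi_pos
  have hq0 : 0 < 1 / (2 * m) * (2 * Real.pi / ℓ) ^ 2 := by positivity
  obtain ⟨R0, hR0⟩ := H1 ℓ hℓ
  filter_upwards [eventually_ge_atTop R0] with R hR c hc
  obtain ⟨c', _, hc'⟩ := hR0 R hR
  have hW := Wr_pot hwm hw he hℓ0
  have hWKp : Pot (fun y => min (Wr w ℓ y) K) := pot_min hW hK
  rw [scat_Q hWKp hc]
  have h1 := scat_min hWKp hq0 hμ hc c'
  have h2 := Qf_mono_pot hW hWKp (fun y => min_le_left _ _)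
    (1 / (2 * m) * (2 * Real.pi / ℓ) ^ 2) μ ((boxM R).erase 0) c'
  have h3 := mul_le_mul_of_nonneg_left (h1.trans h2) hℓ3.le
  linarith

/-- one step of the telescoping -/
lemma tu_step {m : ℝ} (hm : 0 < m) {w : (Fin 3 → ℝ) → ℝ} (hwm : Measurable w)
    (hw : Integrable w) (he : ∀ x, w (-x) = w x) {G S : ℝ} (hG : 0 < G) (hS : S ≤ 3 / 2 * G)
    {μ : ℝ} (hμ : 0 < μ)
    (ih : ∃ L : ℝ, 0 < L ∧ ∀ ℓ : ℝ, L ≤ ℓ →
      ∀ K : ℝ, 0 ≤ K → ∀ᶠ R : ℕ in Filter.atTop, ∀ c : Mom → ℝ,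
        Scat (fun y => min (Wr w ℓ y) K) (1 / (2 * m) * (2 * Real.pi / ℓ) ^ 2) (μ / 4)
          ((boxM R).erase 0) c →
        ℓ ^ 3 * gh (fun y => min (Wr w ℓ y) K) ((boxM R).erase 0) c 0 ≤ S) :
    ∃ L : ℝ, 0 < L ∧ ∀ ℓ : ℝ, L ≤ ℓ →
      ∀ K : ℝ, 0 ≤ K → ∀ᶠ R : ℕ in Filter.atTop, ∀ c : Mom → ℝ,
        Scat (fun y => min (Wr w ℓ y) K) (1 / (2 * m) * (2 * Real.pi / ℓ) ^ 2) μ
          ((boxM R).erase 0) c →
        ℓ ^ 3 * gh (fun y => min (Wr w ℓ y) K) ((boxM R).erase 0) c 0 ≤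
          S + 6 * G ^ 2 * Real.pi ^ 2 / P0 (1 / (2 * m)) * √μ := by
  obtain ⟨b, hb⟩ : ∃ b, b = 1 / (2 * m) := ⟨_, rfl⟩
  have hb0 : 0 < b := by rw [hb]; positivity
  rw [← hb] at ih ⊢
  have hPi := Real.pi_pos
  have hPb := P0_pos hb0
  have hsμ := Real.sqrt_pos.2 hμ
  obtain ⟨μ', hμ'⟩ : ∃ μ', μ' = μ / 4 := ⟨_, rfl⟩
  have hμ'0 : 0 < μ' := by rw [hμ']; positivity
  rw [← hμ'] at ih
  have hsμ' : √μ' = √μ / 2 := by
    rw [hμ', Real.sqrt_div hμ.le]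
    congr 1
    rw [show (4 : ℝ) = 2 ^ 2 by norm_num]
    exact Real.sqrt_sq (by norm_num)
  obtain ⟨L1, hL1, H1⟩ := ih
  obtain ⟨q1, hq1, hlat1⟩ := Pool.Agent.J6H48.BG.lat μ' hμ'0 (Real.pi ^ 2 / √μ')
    (by have := Real.sqrt_pos.2 hμ'0; positivity)
  obtain ⟨L2, hL2, hL2'⟩ := q_small hb0 hq1
  refine ⟨L1 + L2, by positivity, fun ℓ hℓ K hK => ?_⟩
  have hℓ0 : 0 < ℓ := by linarith
  have hℓ3 : 0 < ℓ ^ 3 := by positivity
  have hH := H1 ℓ (by linarith) K hK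
  obtain ⟨q, hq⟩ : ∃ q, q = b * (2 * Real.pi / ℓ) ^ 2 := ⟨_, rfl⟩
  have hq0 : 0 < q := by rw [hq]; positivity
  have hκ : ∀ n, 0 ≤ q * H751R2.LHY.sq n := fun n => mul_nonneg hq0.le (sq_nonneg' n)
  obtain ⟨hs1, hb1⟩ := hlat1 q hq0 (by rw [hq]; exact hL2' ℓ (by linarith))
  rw [← hq] at hH ⊢
  have hW := Wr_pot hwm hw he hℓ0
  have hWKp : Pot (fun y => min (Wr w ℓ y) K) := pot_min hW hK
  have hpos := pos_lim hWKp hK (fun y => min_le_right _ _) hq0 hμ'0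
    (show 0 < G / (2 * ℓ ^ 3) by positivity)
  filter_upwards [hH, hpos] with R hR1 hR2 c hc
  set WK : T3 → ℝ := fun y => min (Wr w ℓ y) K with hWK
  set B0 := (boxM R).erase 0 with hB0
  obtain ⟨c', hc'⟩ := exists_scat hWKp hq0 hμ'0 (boxM_sym R)
  rw [← hB0] at hc'
  have h1 := hR1 c' hc'
  have h2 := hR2 c' hc'
  have hgn : ∀ n, |gh WK B0 c' n| ≤ 2 * G / ℓ ^ 3 := by
    intro n
    refine (gh_abs_le hWKp B0 c' n).trans (h2.trans ?_)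
    rw [le_div_iff₀ hℓ3, add_mul]
    have e1 : G / (2 * ℓ ^ 3) * ℓ ^ 3 = G / 2 := by field_simp
    rw [e1]
    linarith
  have hcn : ∀ n ∈ B0, c' n ^ 2 ≤ (G / ℓ ^ 3) ^ 2 * (1 / (q * H751R2.LHY.sq n + μ') ^ 2) := by
    intro n hn
    have h3 := hc'.eq n hn
    have h4 : 0 < q * H751R2.LHY.sq n + μ' := by have := hκ n; linarith
    have h5 : c' n = gh WK B0 c' n / (2 * (q * H751R2.LHY.sq n + μ')) := by
      rw [h3]; field_simp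
    have h6 : gh WK B0 c' n ^ 2 ≤ (2 * G / ℓ ^ 3) ^ 2 := by
      rw [← sq_abs (gh WK B0 c' n)]
      exact pow_le_pow_left₀ (abs_nonneg _) (hgn n) 2
    rw [h5, div_pow, mul_pow]
    calc gh WK B0 c' n ^ 2 / (2 ^ 2 * (q * H751R2.LHY.sq n + μ') ^ 2)
        ≤ (2 * G / ℓ ^ 3) ^ 2 / (2 ^ 2 * (q * H751R2.LHY.sq n + μ') ^ 2) := by gcongr
      _ = (G / ℓ ^ 3) ^ 2 * (1 / (q * H751R2.LHY.sq n + μ') ^ 2) := by
          field_simp
  have hom : ℓ ^ 3 * ∑ n ∈ B0, c' n ^ 2 ≤ 4 * G ^ 2 * Real.pi ^ 2 / (P0 b * √μ) := by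
    have h3 : ∑ n ∈ B0, c' n ^ 2 ≤ (G / ℓ ^ 3) ^ 2 * ∑ n ∈ B0, 1 / (q * H751R2.LHY.sq n + μ') ^ 2 := by
      rw [Finset.mul_sum]
      exact Finset.sum_le_sum hcn
    have h4 := lat_fin hb0 hℓ0 hμ'0 hq hs1 hb1 B0
    have h5 := mul_le_mul_of_nonneg_left h4 (show 0 ≤ (G / ℓ ^ 3) ^ 2 by positivity)
    calc ℓ ^ 3 * ∑ n ∈ B0, c' n ^ 2
        ≤ ℓ ^ 3 * ((G / ℓ ^ 3) ^ 2 * (2 * Real.pi ^ 2 * ℓ ^ 3 / (P0 b * √μ'))) :=
          mul_le_mul_of_nonneg_left (h3.trans h5) hℓ3.le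
      _ = 4 * G ^ 2 * Real.pi ^ 2 / (P0 b * √μ) := by
          rw [hsμ']
          field_simp
          ring
  have h3 := scat_min hWKp hq0 hμ hc c'
  rw [Qf_gap WK q μ μ' B0 c', ← scat_Q hWKp hc', ← scat_Q hWKp hc] at h3
  have h4 := mul_le_mul_of_nonneg_left h3 hℓ3.le
  have h5 := mul_le_mul_of_nonneg_left hom (show 0 ≤ 2 * (μ - μ') by rw [hμ']; linarith)
  have h6 : 2 * (μ - μ') * (4 * G ^ 2 * Real.pi ^ 2 / (P0 b * √μ)) =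
      6 * G ^ 2 * Real.pi ^ 2 / P0 b * √μ := by
    have h7 : μ = √μ * √μ := (Real.mul_self_sqrt hμ.le).symm
    have h8 : 2 * (μ - μ') = 3 / 2 * (√μ * √μ) := by rw [hμ', ← h7]; ring
    rw [h8]
    field_simp
    ring
  have h7 : ℓ ^ 3 * (gh WK B0 c' 0 + 2 * (μ - μ') * ∑ n ∈ B0, c' n ^ 2) =
      ℓ ^ 3 * gh WK B0 c' 0 + 2 * (μ - μ') * (ℓ ^ 3 * ∑ n ∈ B0, c' n ^ 2) := by ring
  rw [h7] at h4
  rw [h6] at h5
  linarith

/-- **TU** -/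
theorem tu : S_TU := by
  intro m hm G hG ε hε hεG
  have hPb := P0_pos (show 0 < 1 / (2 * m) by positivity)
  have hPi := Real.pi_pos
  obtain ⟨A, hA⟩ : ∃ A, A = 6 * G ^ 2 * Real.pi ^ 2 / P0 (1 / (2 * m)) := ⟨_, rfl⟩
  have hA0 : 0 < A := by rw [hA]; positivity
  refine ⟨(ε / (4 * A)) ^ 2, by positivity, ?_⟩
  intro w hwm hw h0 he hwG μ hμ hμδ
  obtain ⟨δw, hδw, hbase⟩ := tu_base hm hwm hw h0 he (half_pos hε)
  have hsq : ∀ μ : ℝ, μ ≤ (ε / (4 * A)) ^ 2 → 2 * A * √μ ≤ ε / 2 := by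
    intro μ h
    have h1 : √μ ≤ ε / (4 * A) := by
      calc √μ ≤ √((ε / (4 * A)) ^ 2) := Real.sqrt_le_sqrt h
        _ = _ := Real.sqrt_sq (by positivity)
    calc 2 * A * √μ ≤ 2 * A * (ε / (4 * A)) := by gcongr
      _ = ε / 2 := by field_simp; norm_num
  have key : ∀ J : ℕ, ∀ μ : ℝ, 0 < μ → μ ≤ (ε / (4 * A)) ^ 2 → μ ≤ 4 ^ J * δw →
      ∃ L : ℝ, 0 < L ∧ ∀ ℓ : ℝ, L ≤ ℓ →
      ∀ K : ℝ, 0 ≤ K → ∀ᶠ R : ℕ in Filter.atTop, ∀ c : Mom → ℝ,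
        Scat (fun y => min (Wr w ℓ y) K) (1 / (2 * m) * (2 * Real.pi / ℓ) ^ 2) μ
          ((boxM R).erase 0) c →
        ℓ ^ 3 * gh (fun y => min (Wr w ℓ y) K) ((boxM R).erase 0) c 0 ≤
          scatG m w + ε / 2 + 2 * A * √μ := by
    intro J
    induction J with
    | zero =>
      intro μ hμ hμδ hμJ
      obtain ⟨L, hL, H⟩ := hbase μ hμ (by simpa using hμJ)
      refine ⟨L, hL, fun ℓ hℓ K hK => ?_⟩
      filter_upwards [H ℓ hℓ K hK] with R hR c hc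
      have h1 := hR c hc
      have h2 : 0 ≤ 2 * A * √μ := by positivity
      linarith
    | succ J ih =>
      intro μ hμ hμδ hμJ
      have h4 : 0 < μ / 4 := by positivity
      have h5 := ih (μ / 4) h4 (by linarith) (by rw [pow_succ] at hμJ; linarith)
      have hs4 : √(μ / 4) = √μ / 2 := by
        rw [Real.sqrt_div hμ.le]
        congr 1
        rw [show (4 : ℝ) = 2 ^ 2 by norm_num]
        exact Real.sqrt_sq (by norm_num)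
      have h6 := hsq (μ / 4) (by linarith)
      obtain ⟨L, hL, H⟩ := tu_step hm hwm hw he hG
        (S := scatG m w + ε / 2 + 2 * A * √(μ / 4)) (by linarith) hμ h5
      refine ⟨L, hL, fun ℓ hℓ K hK => ?_⟩
      filter_upwards [H ℓ hℓ K hK] with R hR c hc
      have h7 := hR c hc
      rw [← hA, hs4] at h7
      linarith
  obtain ⟨J, hJ⟩ := pow_unbounded_of_one_lt (μ / δw) (show (1 : ℝ) < 4 by norm_num)
  rw [div_lt_iff₀ hδw] at hJ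
  obtain ⟨L, hL, H⟩ := key J μ hμ hμδ hJ.le
  refine ⟨L, hL, fun ℓ hℓ K hK => ?_⟩
  filter_upwards [H ℓ hℓ K hK] with R hR c hc
  have h1 := hR c hc
  have h2 := hsq μ hμδ
  linarith

end

end Pool.Agent.J6H53.BG
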